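import Mathlib
import Pool.Agent.MP_5e38ef_lc.Defs

section

namespace Pool.Agent.MP_5e38ef_lc
open Finset

set_option linter.unusedSectionVars false

variable {V E : Type} [Fintype V] [DecidableEq V] [Fintype E]

/-- One step of the signed, normalised walk operator. -/
noncomputable def opT (src : E → V) (rev : E → E) (d : V → ℝ) (β : E → ℝ) (f : V → ℝ) : V → ℝ :=
  fun x => ∑ e ∈ univ.filter (fun e => src e = x), β e * f (src (rev e)) / d x

/-- The weighted inner product. -/
noncomputable def ip (d : V → ℝ) (f g : V → ℝ) : ℝ := ∑ x, d x * f x * g x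

lemma ip_comm (d f g : V → ℝ) : ip d f g = ip d g f := by
  unfold ip; exact sum_congr rfl (fun x _ => by ring)

lemma ip_cs (d : V → ℝ) (hd : ∀ x, 0 < d x) (f g : V → ℝ) :
    ip d f g ^ 2 ≤ ip d f f * ip d g g := by
  unfold ip
  refine Finset.sum_sq_le_sum_mul_sum_of_sq_le_mul _ (fun x _ => ?_) (fun x _ => ?_)
    (fun x _ => le_of_eq (by ring))
  · have := hd x; rw [mul_assoc]; exact mul_nonneg this.le (mul_self_nonneg _)
  · have := hd x; rw [mul_assoc]; exact mul_nonneg this.le (mul_self_nonneg _)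

lemma ip_nonneg (d : V → ℝ) (hd : ∀ x, 0 < d x) (f : V → ℝ) : 0 ≤ ip d f f := by
  unfold ip
  refine sum_nonneg (fun x _ => ?_)
  have := hd x; rw [mul_assoc]; exact mul_nonneg this.le (mul_self_nonneg _)

lemma ip_opT (src : E → V) (rev : E → E) (d : V → ℝ) (hd : ∀ x, 0 < d x) (β : E → ℝ)
    (f g : V → ℝ) :
    ip d f (opT src rev d β g) = ∑ e, β e * f (src e) * g (src (rev e)) := by
  unfold ip opT
  rw [← Finset.sum_fiberwise (s := univ) (g := src)]
  refine sum_congr rfl (fun x _ => ?_)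
  rw [mul_sum]
  refine sum_congr rfl (fun e he => ?_)
  rw [(mem_filter.1 he).2]
  have := (hd x).ne'
  field_simp

lemma ip_adj (src : E → V) (rev : E → E) (hrev : Function.Involutive rev) (d : V → ℝ)
    (hd : ∀ x, 0 < d x) (β : E → ℝ) (hβ : ∀ e, β (rev e) = β e) (f g : V → ℝ) :
    ip d (opT src rev d β f) g = ip d f (opT src rev d β g) := by
  rw [ip_comm, ip_opT src rev d hd, ip_opT src rev d hd,
    ← Equiv.sum_comp hrev.toPerm]
  refine sum_congr rfl (fun e _ => ?_)
  simp only [Function.Involutive.coe_toPerm, hrev e, hβ]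
  ring

lemma ip_adj_iter (src : E → V) (rev : E → E) (hrev : Function.Involutive rev) (d : V → ℝ)
    (hd : ∀ x, 0 < d x) (β : E → ℝ) (hβ : ∀ e, β (rev e) = β e) (j : ℕ) :
    ∀ f g : V → ℝ, ip d ((opT src rev d β)^[j] f) g = ip d f ((opT src rev d β)^[j] g) := by
  induction j with
  | zero => intro f g; rfl
  | succ j ih =>
    intro f g
    rw [Function.iterate_succ_apply', ip_adj src rev hrev d hd β hβ, ih,
      Function.iterate_succ_apply]

lemma ip_single (d : V → ℝ) (f : V → ℝ) (x : V) : ip d f (Pi.single x 1) = d x * f x := by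
  unfold ip
  rw [sum_eq_single x]
  · simp
  · intro y _ hy; simp [hy]
  · simp

/-- The quadratic form is bounded by the trace of an even power. -/
theorem spectral (src : E → V) (rev : E → E) (hrev : Function.Involutive rev) (d : V → ℝ)
    (hd : ∀ x, 0 < d x) (β : E → ℝ) (hβ : ∀ e, β (rev e) = β e) (f : V → ℝ) (B K : ℝ)
    (hB : 0 < B) (hK : ∑ x, d x * f x * f x ≤ K)
    (hf : B ≤ ∑ e, β e * f (src e) * f (src (rev e))) (i : ℕ) :
    (B / K) ^ 2 ^ (i + 1) ≤ ∑ x, (opT src rev d β)^[2 ^ (i + 1)] (Pi.single x 1) x := by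
  set T := opT src rev d β with hT
  have hadj := ip_adj_iter src rev hrev d hd β hβ
  have hf' : B ≤ ip d f (T f) := by rw [hT, ip_opT src rev d hd]; exact hf
  set P := ip d f f with hP
  have hP0 : 0 ≤ P := ip_nonneg d hd f
  have hPK : P ≤ K := hK
  have hPpos : 0 < P := by
    rcases hP0.lt_or_eq with h | h
    · exact h
    · have := ip_cs d hd f (T f)
      rw [← hP, ← h] at this
      nlinarith
  have hKpos : 0 < K := hPpos.trans_le hPK
  have hdouble : ∀ j, ip d f (T^[j + j] f) = ip d (T^[j] f) (T^[j] f) := by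
    intro j
    rw [Function.iterate_add_apply, hadj]
  have hpow : ∀ i : ℕ, (B / P) ^ 2 ^ i * P ≤ ip d f (T^[2 ^ i] f) := by
    intro i
    induction i with
    | zero => simp only [pow_zero, pow_one, Function.iterate_one]; rwa [div_mul_cancel₀ _ hPpos.ne']
    | succ i ih =>
      rw [pow_succ 2 i, mul_two, hdouble]
      have h1 := ip_cs d hd f (T^[2 ^ i] f)
      rw [← hP] at h1
      have h2 : 0 ≤ (B / P) ^ 2 ^ i * P := by positivity
      have h3 := pow_le_pow_left₀ h2 ih 2
      rw [pow_add]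
      have h4 : ((B / P) ^ 2 ^ i * (B / P) ^ 2 ^ i * P) * P ≤
          ip d (T^[2 ^ i] f) (T^[2 ^ i] f) * P := by nlinarith
      exact le_of_mul_le_mul_right h4 hPpos
  have htr : ip d f (T^[2 ^ (i + 1)] f) ≤ (∑ x, T^[2 ^ (i + 1)] (Pi.single x 1) x) * P := by
    rw [pow_succ 2 i, mul_two, hdouble, sum_mul]
    unfold ip
    refine sum_le_sum (fun x _ => ?_)
    have h1 : d x * T^[2 ^ i] f x = ip d f (T^[2 ^ i] (Pi.single x 1)) := by
      rw [← ip_single, hadj]
    have h2 := ip_cs d hd f (T^[2 ^ i] (Pi.single x 1))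
    have h3 : ip d (T^[2 ^ i] (Pi.single x 1)) (T^[2 ^ i] (Pi.single x 1)) =
        d x * T^[2 ^ i + 2 ^ i] (Pi.single x 1) x := by
      rw [hadj, ← Function.iterate_add_apply, ip_comm, ip_single]
    rw [← h1, h3, ← hP] at h2
    have hx := hd x
    have h4 : d x * (d x * T^[2 ^ i] f x * T^[2 ^ i] f x) ≤
        d x * (T^[2 ^ i + 2 ^ i] (Pi.single x 1) x * P) := by nlinarith
    exact le_of_mul_le_mul_left h4 hx
  have h5 := le_of_mul_le_mul_right ((hpow (i + 1)).trans htr) hPpos
  refine le_trans (pow_le_pow_left₀ (by positivity) ?_ _) h5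
  exact div_le_div_of_nonneg_left hB.le hPpos hPK

/-- Weighted sums over walks. -/
noncomputable def ws (src : E → V) (rev : E → E) (d : V → ℝ) (F : V → List E → ℝ) :
    ℕ → V → List E → ℝ
  | 0, x, l => F x l
  | q + 1, x, l => ∑ e ∈ univ.filter (fun e => src e = x),
      ws src rev d F q (src (rev e)) (e :: l) / d x

lemma ws_opT (src : E → V) (rev : E → E) (d : V → ℝ) (β : E → ℝ) (f : V → ℝ) (q : ℕ) :
    ∀ x l, (List.map β l).prod * (opT src rev d β)^[q] f x =
      ws src rev d (fun y l' => (List.map β l').prod * f y) q x l := by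
  induction q with
  | zero => intro x l; rfl
  | succ q ih =>
    intro x l
    rw [Function.iterate_succ_apply', ws, opT, mul_sum]
    refine sum_congr rfl (fun e _ => ?_)
    rw [← ih, List.map_cons, List.prod_cons]
    ring

lemma ws_sum {Ω : Type} [Fintype Ω] (src : E → V) (rev : E → E) (d : V → ℝ)
    (F : Ω → V → List E → ℝ) (q : ℕ) :
    ∀ x l, ∑ ω, ws src rev d (F ω) q x l = ws src rev d (fun y l' => ∑ ω, F ω y l') q x l := by
  induction q with
  | zero => intro x l; rfl
  | succ q ih =>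
    intro x l
    simp only [ws]
    rw [sum_comm]
    refine sum_congr rfl (fun e _ => ?_)
    rw [← ih, sum_div]

lemma ws_le (src : E → V) (rev : E → E) (d : V → ℝ) (hd : ∀ x, 0 < d x) (F : V → List E → ℝ)
    (Φ : List E → ℝ) (Q : ℕ) (κ : ℝ) (hκ : 0 ≤ κ)
    (h1 : ∀ y l, l.length = Q → F y l ≤ Φ l)
    (h2 : ∀ x l, l.length < Q →
      ∑ e ∈ univ.filter (fun e => src e = x), Φ (e :: l) / d x ≤ κ * Φ l) (q : ℕ) :
    ∀ x l, l.length + q = Q → ws src rev d F q x l ≤ κ ^ q * Φ l := by
  induction q with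
  | zero => intro x l hl; simpa [ws] using h1 x l hl
  | succ q ih =>
    intro x l hl
    rw [ws]
    calc _ ≤ ∑ e ∈ univ.filter (fun e => src e = x), κ ^ q * (Φ (e :: l) / d x) := by
          refine sum_le_sum (fun e _ => ?_)
          rw [← mul_div_assoc]
          exact div_le_div_of_nonneg_right (ih _ _ (by simp; omega)) (hd x).le
      _ ≤ κ ^ q * (κ * Φ l) := by
          rw [← mul_sum]
          exact mul_le_mul_of_nonneg_left (h2 x l (by omega)) (by positivity)
      _ = _ := by ring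

end Pool.Agent.MP_5e38ef_lc

end

section

namespace Pool.Agent.MP_5e38ef_lc
open Finset

set_option linter.unusedSectionVars false

/-- The sign of a bit. -/
def sgn (b : Bool) : ℝ := if b then -1 else 1

lemma sgn_not (b : Bool) : sgn (!b) = -sgn b := by cases b <;> simp [sgn]

lemma abs_sgn (b : Bool) : |sgn b| = 1 := by cases b <;> simp [sgn]

lemma sgn_mul_self (b : Bool) : sgn b * sgn b = 1 := by cases b <;> simp [sgn]

section Signs
variable {C : Type} [Fintype C] [DecidableEq C]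

lemma prod_flip (g : C → Bool) (κ : C) (L : List C) :
    (L.map fun x => sgn (Function.update g κ (!g κ) x)).prod =
      (-1) ^ L.count κ * (L.map fun x => sgn (g x)).prod := by
  induction L with
  | nil => simp
  | cons x L ih =>
    rw [List.map_cons, List.prod_cons, ih, List.map_cons, List.prod_cons, List.count_cons]
    by_cases h : x = κ
    · subst h
      simp [sgn_not, pow_succ]
      ring
    · simp [h]
      ring

lemma sum_prod_eq_zero (L : List C) (κ : C) (h : L.count κ = 1) :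
    ∑ g : C → Bool, (L.map fun x => sgn (g x)).prod = 0 := by
  have hinv : Function.Involutive (fun g : C → Bool => Function.update g κ (!g κ)) := by
    intro g; simp
  have h1 := Equiv.sum_comp hinv.toPerm (fun g => (L.map fun x => sgn (g x)).prod)
  simp only [Function.Involutive.coe_toPerm, prod_flip, h, pow_one] at h1
  rw [← mul_sum] at h1
  linarith

lemma abs_prod_sgn (g : C → Bool) (L : List C) : |(L.map fun x => sgn (g x)).prod| = 1 := by
  induction L with
  | nil => simp
  | cons x L ih => rw [List.map_cons, List.prod_cons, abs_mul, ih, abs_sgn, one_mul]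

/-- `lam` to the number of repeated entries. -/
noncomputable def psi (lam : ℝ) : List C → ℝ
  | [] => 1
  | x :: L => psi lam L * if x ∈ L then lam else 1

lemma psi_pos {lam : ℝ} (h : 0 < lam) (L : List C) : 0 < psi lam L := by
  induction L with
  | nil => simp [psi]
  | cons x L ih => rw [psi]; split_ifs <;> positivity

lemma psi_eq (lam : ℝ) (L : List C) : psi lam L * lam ^ L.toFinset.card = lam ^ L.length := by
  induction L with
  | nil => simp [psi]
  | cons x L ih =>
    rw [psi, List.toFinset_cons, List.length_cons, pow_succ, ← ih]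
    by_cases h : x ∈ L
    · rw [if_pos h, insert_eq_of_mem (List.mem_toFinset.2 h)]; ring
    · rw [if_neg h, card_insert_of_notMem (by simpa using h)]; ring

lemma sum_prod_le {lam : ℝ} (hl : 1 ≤ lam) (L : List C) (p : ℕ) (hL : L.length = 2 * p) :
    |∑ g : C → Bool, (L.map fun x => sgn (g x)).prod| ≤
      Fintype.card (C → Bool) * (psi lam L / lam ^ p) := by
  have hl0 : 0 < lam := by linarith
  by_cases h : ∃ κ, L.count κ = 1
  · obtain ⟨κ, hκ⟩ := h
    rw [sum_prod_eq_zero L κ hκ, abs_zero]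
    have := psi_pos hl0 L
    positivity
  · push Not at h
    have h1 : 2 * L.toFinset.card ≤ L.length := by
      rw [← List.sum_toFinset_count_eq_length, mul_comm, ← smul_eq_mul, ← sum_const]
      refine sum_le_sum (fun x hx => ?_)
      have h2 := List.count_pos_iff.2 (List.mem_toFinset.1 hx)
      have := h x
      omega
    have h2 : lam ^ p ≤ psi lam L := by
      have h3 := psi_eq lam L
      have h4 : lam ^ p * lam ^ L.toFinset.card ≤ lam ^ L.length := by
        rw [← pow_add]; exact pow_le_pow_right₀ hl (by omega)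
      rw [← h3] at h4
      exact le_of_mul_le_mul_right h4 (by positivity)
    calc _ ≤ ∑ g : C → Bool, |(L.map fun x => sgn (g x)).prod| := abs_sum_le_sum_abs _ _
      _ = Fintype.card (C → Bool) := by simp [abs_prod_sgn]
      _ ≤ _ := le_mul_of_one_le_right (by positivity) ((one_le_div (by positivity)).2 h2)

end Signs

lemma sum_update {I A : Type} [Fintype I] [DecidableEq I] [Fintype A] [DecidableEq A]
    (c : I) (F : (I → A) → ℝ) :
    ∑ s : I → A, ∑ v : A, F (Function.update s c v) = Fintype.card A * ∑ s, F s := by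
  have hinv : Function.Involutive
      (fun p : (I → A) × A => (Function.update p.1 c p.2, p.1 c)) := by
    rintro ⟨s, v⟩; simp
  have h1 := Equiv.sum_comp hinv.toPerm (fun p => F p.1)
  simp only [Function.Involutive.coe_toPerm, Fintype.sum_prod_type] at h1
  rw [h1]
  simp [mul_sum]

section Core
variable {Z I C : Type} [Fintype Z] [DecidableEq Z] [Fintype I] [DecidableEq I]
  [Fintype C] [DecidableEq C]

/-- A query is fresh for a list of queries. -/
def Fresh {m : ℕ} (cls : (I → Fin m) → Z → C) (l : List Z) (z : Z) : Prop :=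
  (∀ s, cls s z ∉ l.map (cls s)) ∨ ∃ c : I,
    (∀ z' ∈ l, ∀ s v, cls (Function.update s c v) z' = cls s z') ∧
      ∀ s, Function.Injective fun v => cls (Function.update s c v) z

lemma fresh_le {m : ℕ} (hm : 0 < m) (cls : (I → Fin m) → Z → C) (l : List Z) (z : Z)
    (hz : Fresh cls l z) {lam : ℝ} (hl : 0 < lam) :
    ∑ s, psi lam (l.map (cls s)) * (if cls s z ∈ l.map (cls s) then 1 else 0) ≤
      l.length / m * ∑ s, psi lam (l.map (cls s)) := by
  have hmR : (0 : ℝ) < m := by exact_mod_cast hm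
  have hS : 0 ≤ ∑ s : I → Fin m, psi lam (l.map (cls s)) :=
    sum_nonneg fun s _ => (psi_pos hl _).le
  rcases hz with hz | ⟨c, h1, h2⟩
  · simp only [hz, if_false, mul_zero, sum_const_zero]
    positivity
  · have h3 := sum_update c fun s : I → Fin m =>
      psi lam (l.map (cls s)) * (if cls s z ∈ l.map (cls s) then (1 : ℝ) else 0)
    rw [Fintype.card_fin] at h3
    rw [div_mul_eq_mul_div, le_div_iff₀ hmR, mul_comm, ← h3, mul_sum]
    refine sum_le_sum (fun s _ => ?_)
    have h4 : ∀ v, l.map (cls (Function.update s c v)) = l.map (cls s) := fun v =>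
      List.map_congr_left (fun z' hz' => h1 z' hz' s v)
    simp only [h4]
    rw [← mul_sum, mul_comm]
    refine mul_le_mul_of_nonneg_right ?_ (psi_pos hl _).le
    rw [sum_boole]
    have h5 : (univ.filter fun v => cls (Function.update s c v) z ∈ l.map (cls s)).card ≤
        (l.map (cls s)).toFinset.card := by
      refine card_le_card_of_injOn (fun v => cls (Function.update s c v) z) ?_ (h2 s).injOn
      intro v hv
      simpa using hv
    have h6 := List.toFinset_card_le (l.map (cls s))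
    rw [List.length_map] at h6
    exact_mod_cast h5.trans h6

variable {V E : Type} [Fintype V] [DecidableEq V] [Fintype E]

lemma step_le {m : ℕ} (hm : 0 < m) (cls : (I → Fin m) → Z → C) (src : E → V) (zq : E → Z)
    (a : ℝ) (ha : 0 < a) (μ Θ Q : ℕ)
    (hμ : ∀ x z, (univ.filter fun e => src e = x ∧ zq e = z).card ≤ μ)
    (hO : ∀ l : List Z, l.length < Q → ∃ O : Finset Z, O.card ≤ Θ ∧ ∀ z ∉ O, Fresh cls l z)
    {η : ℝ} (hη : (Q : ℝ) / m + Θ * μ / a ≤ η) (hη0 : 0 < η) (hη1 : η ≤ 1) (x : V) (l : List E)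
    (hl : l.length < Q) :
    ∑ e ∈ univ.filter (fun e => src e = x),
      (∑ s, psi (1 / η) ((e :: l).map fun e => cls s (zq e))) /
        ((univ.filter fun e => src e = x).card + a) ≤
      2 * ∑ s, psi (1 / η) (l.map fun e => cls s (zq e)) := by
  classical
  set lam := 1 / η with hlam
  have hl0 : 0 < lam := by positivity
  have hmR : (0 : ℝ) < m := by exact_mod_cast hm
  obtain ⟨O, hO1, hO2⟩ := hO (l.map zq) (by simpa using hl)
  set P := ∑ s : I → Fin m, psi lam (l.map fun e => cls s (zq e)) with hP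
  have hP0 : 0 ≤ P := sum_nonneg fun s _ => (psi_pos hl0 _).le
  set D := (univ.filter fun e => src e = x) with hD
  have hmap : ∀ s, (l.map zq).map (cls s) = l.map fun e => cls s (zq e) := by
    intro s; rw [List.map_map]; rfl
  have h1 : ∀ e : E, ∑ s, psi lam ((e :: l).map fun e => cls s (zq e)) ≤
      P + lam * ((Q : ℝ) / m + if zq e ∈ O then 1 else 0) * P := by
    intro e
    have h2 : ∑ s : I → Fin m, psi lam (l.map fun e => cls s (zq e)) *
        (if cls s (zq e) ∈ l.map (fun e => cls s (zq e)) then (1 : ℝ) else 0) ≤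
        ((Q : ℝ) / m + if zq e ∈ O then 1 else 0) * P := by
      by_cases he : zq e ∈ O
      · rw [if_pos he]
        calc _ ≤ P := sum_le_sum fun s _ => by
              have := psi_pos hl0 (l.map fun e => cls s (zq e))
              split_ifs <;> linarith
          _ ≤ _ := le_mul_of_one_le_left hP0 (by
              have : (0 : ℝ) ≤ Q / m := by positivity
              linarith)
      · rw [if_neg he, add_zero]
        have h3 := fresh_le hm cls (l.map zq) (zq e) (hO2 _ he) hl0
        simp only [hmap, List.length_map] at h3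
        refine h3.trans (mul_le_mul_of_nonneg_right ?_ hP0)
        exact div_le_div_of_nonneg_right (by exact_mod_cast hl.le) hmR.le
    calc _ ≤ ∑ s : I → Fin m, (psi lam (l.map fun e => cls s (zq e)) +
          lam * (psi lam (l.map fun e => cls s (zq e)) *
            (if cls s (zq e) ∈ l.map (fun e => cls s (zq e)) then (1 : ℝ) else 0))) := by
          refine sum_le_sum (fun s _ => ?_)
          rw [List.map_cons, psi]
          have := psi_pos hl0 (l.map fun e => cls s (zq e))
          split_ifs <;> nlinarith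
      _ ≤ _ := by
          rw [sum_add_distrib, ← mul_sum, mul_assoc]
          exact add_le_add le_rfl (mul_le_mul_of_nonneg_left h2 hl0.le)
  have h3 : ((D.filter fun e => zq e ∈ O).card : ℝ) ≤ Θ * μ := by
    have h4 : (D.filter fun e => zq e ∈ O).card ≤ μ * O.card := by
      refine card_le_mul_card_image_of_maps_to (f := zq) (fun e he => (mem_filter.1 he).2) μ
        (fun z _ => le_trans (card_le_card ?_) (hμ x z))
      intro e he
      simp only [hD, mem_filter, mem_univ, true_and] at he ⊢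
      exact ⟨he.1.1, he.2⟩
    have h5 : μ * O.card ≤ Θ * μ := by rw [mul_comm]; exact Nat.mul_le_mul_right _ hO1
    exact_mod_cast h4.trans h5
  have hd0 : (0 : ℝ) < D.card + a := by positivity
  rw [← sum_div, div_le_iff₀ hd0]
  refine (sum_le_sum fun e _ => h1 e).trans ?_
  rw [sum_add_distrib, ← sum_mul, ← mul_sum, sum_add_distrib, sum_boole, sum_const, sum_const,
    nsmul_eq_mul, nsmul_eq_mul]
  have h6 : (D.card : ℝ) * (Q / m) + (D.filter fun e => zq e ∈ O).card ≤ η * (D.card + a) := by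
    have h7 : (Θ : ℝ) * μ = Θ * μ / a * a := by field_simp
    have h8 : (0 : ℝ) ≤ Θ * μ / a := by positivity
    have h9 : (0 : ℝ) ≤ Q / m := by positivity
    have h10 : (0 : ℝ) ≤ D.card := Nat.cast_nonneg _
    calc _ ≤ (D.card : ℝ) * (Q / m) + Θ * μ / a * a := by linarith
      _ ≤ (Q / m + Θ * μ / a) * (D.card + a) := by
          nlinarith [mul_nonneg h8 h10, mul_nonneg h9 ha.le]
      _ ≤ _ := mul_le_mul_of_nonneg_right hη hd0.le
  have h11 : lam * ((D.card : ℝ) * (Q / m) + (D.filter fun e => zq e ∈ O).card) ≤ D.card + a := by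
    calc _ ≤ lam * (η * (D.card + a)) := mul_le_mul_of_nonneg_left h6 hl0.le
      _ = _ := by rw [hlam]; field_simp
  nlinarith [mul_le_mul_of_nonneg_right h11 hP0]

theorem core {m : ℕ} (hm : 0 < m) (cls : (I → Fin m) → Z → C) (src : E → V) (rev : E → E)
    (hrev : Function.Involutive rev) (zq : E → Z) (hzq : ∀ e, zq (rev e) = zq e)
    (c : E → Bool) (hc : ∀ e, c (rev e) = c e) (a : ℝ) (ha : 0 < a) (μ Θ i : ℕ)
    (hμ : ∀ x z, (univ.filter fun e => src e = x ∧ zq e = z).card ≤ μ)
    (hO : ∀ l : List Z, l.length < 2 ^ (i + 1) →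
      ∃ O : Finset Z, O.card ≤ Θ ∧ ∀ z ∉ O, Fresh cls l z)
    {η : ℝ} (hη : ((2 ^ (i + 1) : ℕ) : ℝ) / m + Θ * μ / a ≤ η) (hη0 : 0 < η) (hη1 : η ≤ 1)
    (B K : ℝ) (hB : 0 < B)
    (hact : ∀ (s : I → Fin m) (g : C → Bool), ∃ f : V → ℝ,
      ∑ x, ((univ.filter fun e => src e = x).card + a) * f x * f x ≤ K ∧
      B ≤ ∑ e, sgn (c e) * sgn (g (cls s (zq e))) * f (src e) * f (src (rev e))) :
    (B / K) ^ 2 ^ (i + 1) ≤ Fintype.card V * (4 * η) ^ 2 ^ i := by
  classical
  set d : V → ℝ := fun x => (univ.filter fun e => src e = x).card + a with hd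
  have hd0 : ∀ x, 0 < d x := fun x => by positivity
  set β : (I → Fin m) × (C → Bool) → E → ℝ :=
    fun ω e => sgn (c e) * sgn (ω.2 (cls ω.1 (zq e))) with hβ
  set lam := 1 / η with hlam
  have hl1 : 1 ≤ lam := by rw [hlam, le_div_iff₀ hη0]; linarith
  have hl0 : 0 < lam := by linarith
  set G : ℝ := (Fintype.card (C → Bool) : ℝ) with hG
  have h1 : ∀ ω, (B / K) ^ 2 ^ (i + 1) ≤
      ∑ x, (opT src rev d (β ω))^[2 ^ (i + 1)] (Pi.single x 1) x := by
    intro ω
    obtain ⟨f, hf1, hf2⟩ := hact ω.1 ω.2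
    exact spectral src rev hrev d hd0 (β ω) (fun e => by simp only [hβ, hc, hzq]) f B K hB hf1
      hf2 i
  have h2 : ∀ x, ∑ ω, (opT src rev d (β ω))^[2 ^ (i + 1)] (Pi.single x 1) x ≤
      2 ^ 2 ^ (i + 1) * (G / lam ^ 2 ^ i * Fintype.card (I → Fin m)) := by
    intro x
    have h3 : ∀ ω, (opT src rev d (β ω))^[2 ^ (i + 1)] (Pi.single x 1) x =
        ws src rev d (fun y l' => (List.map (β ω) l').prod * (Pi.single x 1 : V → ℝ) y)
          (2 ^ (i + 1)) x [] := by
      intro ω; rw [← ws_opT]; simp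
    simp only [h3]
    rw [ws_sum]
    have h4 := ws_le src rev d hd0
      (fun y l' => ∑ ω, (List.map (β ω) l').prod * (Pi.single x 1 : V → ℝ) y)
      (fun l => G / lam ^ 2 ^ i * ∑ s, psi lam (l.map fun e => cls s (zq e))) (2 ^ (i + 1)) 2
      (by norm_num) ?_ ?_ (2 ^ (i + 1)) x [] (by simp)
    · simpa [psi] using h4
    · intro y l hl
      rw [← sum_mul, Fintype.sum_prod_type, mul_sum]
      have h5 : |∑ s : I → Fin m, ∑ g : C → Bool, (List.map (β (s, g)) l).prod| ≤
          ∑ s, G / lam ^ 2 ^ i * psi lam (l.map fun e => cls s (zq e)) := by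
        refine (abs_sum_le_sum_abs _ _).trans (sum_le_sum fun s _ => ?_)
        have h6 : ∀ g : C → Bool, (List.map (β (s, g)) l).prod =
            (l.map fun e => sgn (c e)).prod *
              ((l.map fun e => cls s (zq e)).map fun x => sgn (g x)).prod := by
          intro g
          rw [List.map_map, ← List.prod_map_mul]
          rfl
        simp only [h6]
        rw [← mul_sum, abs_mul]
        have h7 : |(l.map fun e => sgn (c e)).prod| = 1 := by
          clear h6 hl
          induction l with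
          | nil => simp
          | cons x L ih => rw [List.map_cons, List.prod_cons, abs_mul, ih, abs_sgn, one_mul]
        rw [h7, one_mul]
        refine (sum_prod_le hl1 _ (2 ^ i) (by rw [List.length_map, hl]; ring)).trans (le_of_eq ?_)
        rw [hG]; ring
      have h8 : |(Pi.single x 1 : V → ℝ) y| ≤ 1 := by
        rw [Pi.single_apply]; split_ifs <;> simp
      calc _ ≤ |(∑ s : I → Fin m, ∑ g : C → Bool, (List.map (β (s, g)) l).prod) *
            (Pi.single x 1 : V → ℝ) y| := le_abs_self _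
        _ ≤ _ := by
          rw [abs_mul]
          exact (mul_le_of_le_one_right (abs_nonneg _) h8).trans h5
    · intro y l hl
      have h5 := step_le hm cls src zq a ha μ Θ (2 ^ (i + 1)) hμ hO hη hη0 hη1 y l hl
      simp only [mul_div_assoc]
      rw [← mul_sum, mul_left_comm]
      exact mul_le_mul_of_nonneg_left h5 (by positivity)
  have h3 := sum_le_sum (s := univ) fun ω _ => h1 ω
  rw [sum_comm] at h3
  have h4 := h3.trans (sum_le_sum fun x _ => h2 x)
  rw [sum_const, sum_const, card_univ, card_univ, nsmul_eq_mul, nsmul_eq_mul, Fintype.card_prod,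
    Nat.cast_mul, ← hG] at h4
  have hG0 : 0 < G := by rw [hG]; exact_mod_cast Fintype.card_pos
  have hI0 : (0 : ℝ) < Fintype.card (I → Fin m) := by
    have : Nonempty (Fin m) := ⟨⟨0, hm⟩⟩
    exact_mod_cast Fintype.card_pos
  have h5 : (2 : ℝ) ^ 2 ^ (i + 1) / lam ^ 2 ^ i = (4 * η) ^ 2 ^ i := by
    rw [pow_succ 2 i, mul_comm (2 ^ i), pow_mul, ← div_pow, hlam]
    congr 1
    field_simp
    norm_num
  refine le_of_mul_le_mul_left (a := (Fintype.card (I → Fin m) : ℝ) * G) ?_ (by positivity)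
  refine h4.trans (le_of_eq ?_)
  rw [← h5]
  ring

end Core

end Pool.Agent.MP_5e38ef_lc

end

section

namespace Pool.Agent.MP_5e38ef_lc
open Finset

set_option linter.unusedSectionVars false

section Transcript
variable {S W h : ℕ}

/-- A two-part transcript as a sequence. -/
def ext (d : Fin W) (τ : Bool → Fin h → Fin W) (i : ℕ) : Fin W :=
  if hi : i < h then τ false ⟨i, hi⟩ else if hi' : i - h < h then τ true ⟨i - h, hi'⟩ else d

/-- Prefixes of a sequence, latest entry first. -/
def pref (f : ℕ → Fin W) : ℕ → List (Fin W)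
  | 0 => []
  | t + 1 => f t :: pref f t

/-- The position of an entry of a two-part transcript. -/
def pos (b : Bool) (i : Fin h) : ℕ := if b then h + i else i

lemma ext_pos (d : Fin W) (τ : Bool → Fin h → Fin W) (b : Bool) (i : Fin h) :
    ext d τ (pos b i) = τ b i := by
  cases b <;> simp [ext, pos]

lemma pos_lt (b : Bool) (i : Fin h) : pos b i < 2 * h := by
  have := i.2
  cases b <;> simp only [pos, Bool.false_eq_true, if_false, if_true] <;> omega

lemma exists_pos {t : ℕ} (ht : t < 2 * h) : ∃ b, ∃ i : Fin h, t = pos b i := by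
  by_cases h1 : t < h
  · exact ⟨false, ⟨t, h1⟩, by simp [pos]⟩
  · exact ⟨true, ⟨t - h, by omega⟩, by simp only [pos, if_true]; omega⟩

/-- One half of a transcript agrees with the memory. -/
def Cons (d : Fin W) (addr : List (Fin W) → Fin S) (M : Fin S → Fin W)
    (τ : Bool → Fin h → Fin W) (b : Bool) : Prop :=
  ∀ i, M (addr (pref (ext d τ) (pos b i))) = τ b i

lemma cons_uniq {d : Fin W} {addr : List (Fin W) → Fin S} {M : Fin S → Fin W}
    {τ τ' : Bool → Fin h → Fin W}
    (H : ∀ b, τ b = τ' b ∨ (Cons d addr M τ b ∧ Cons d addr M τ' b)) : τ = τ' := by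
  have key : ∀ t, t ≤ 2 * h → pref (ext d τ) t = pref (ext d τ') t := by
    intro t
    induction t with
    | zero => intro _; rfl
    | succ t ih =>
      intro ht
      obtain ⟨b, i, rfl⟩ := exists_pos (h := h) (t := t) (by omega)
      have h1 := ih (by omega)
      rw [pref, pref, h1, ext_pos, ext_pos]
      rcases H b with h2 | ⟨h2, h3⟩
      · rw [h2]
      · rw [← h2 i, ← h3 i, h1]
  funext b i
  have := key (pos b i + 1) (pos_lt b i)
  rw [pref, pref, ext_pos, ext_pos] at this
  exact (List.cons.inj this).1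

/-- The true transcript. -/
def tru (addr : List (Fin W) → Fin S) (M : Fin S → Fin W) : Bool → Fin h → Fin W :=
  fun b i => M (addr (reads addr M (pos b i)))

lemma pref_tru (d : Fin W) (addr : List (Fin W) → Fin S) (M : Fin S → Fin W) :
    ∀ t, t ≤ 2 * h → pref (ext d (tru (h := h) addr M)) t = reads addr M t := by
  intro t
  induction t with
  | zero => intro _; rfl
  | succ t ih =>
    intro ht
    obtain ⟨b, i, rfl⟩ := exists_pos (h := h) (t := t) (by omega)
    rw [pref, reads, ih (by omega), ext_pos]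
    rfl

lemma cons_tru (d : Fin W) (addr : List (Fin W) → Fin S) (M : Fin S → Fin W) (b : Bool) :
    Cons d addr M (tru (h := h) addr M) b := by
  intro i
  rw [pref_tru d addr M _ (pos_lt b i).le]
  rfl

end Transcript

theorem probe_bound {Z I C : Type} [Fintype Z] [DecidableEq Z] [Nonempty Z] [Fintype I]
    [DecidableEq I] [Fintype C] [DecidableEq C] {S W h m : ℕ} (hm : 0 < m) (hW : 0 < W)
    (cls : (I → Fin m) → Z → C) (addr : Z → List (Fin W) → Fin S)
    (out : Z → List (Fin W) → Bool) (Θ i : ℕ)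
    (hO : ∀ l : List Z, l.length < 2 ^ (i + 1) →
      ∃ O : Finset Z, O.card ≤ Θ ∧ ∀ z ∉ O, Fresh cls l z)
    (hcor : ∀ (s : I → Fin m) (g : C → Bool), ∃ M : Fin S → Fin W,
      ∀ z, out z (reads (addr z) M (2 * h)) = g (cls s z))
    {η : ℝ} (hη : ((2 ^ (i + 1) : ℕ) : ℝ) / m + Θ * S ^ h / Fintype.card Z ≤ η) (hη0 : 0 < η)
    (hη1 : η ≤ 1) :
    (1 / (2 * (W : ℝ) ^ h)) ^ 2 ^ (i + 1) ≤ 2 * ((S : ℝ) * W) ^ h * (4 * η) ^ 2 ^ i := by
  classical
  set d : Fin W := ⟨0, hW⟩
  have hS : 0 < S := Fin.pos (addr (Classical.arbitrary Z) [])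
  have hSR : (0 : ℝ) < S := by exact_mod_cast hS
  have hWR : (0 : ℝ) < W := by exact_mod_cast hW
  set N : ℝ := (Fintype.card Z : ℝ) with hN
  have hN0 : 0 < N := by rw [hN]; exact_mod_cast Fintype.card_pos
  let src : Z × (Bool → Fin h → Fin W) × Bool → Bool × (Fin h → Fin S × Fin W) := fun e =>
    (e.2.2, fun j => (addr e.1 (pref (ext d e.2.1) (pos e.2.2 j)), e.2.1 e.2.2 j))
  let rev : Z × (Bool → Fin h → Fin W) × Bool → Z × (Bool → Fin h → Fin W) × Bool := fun e =>
    (e.1, e.2.1, !e.2.2)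
  have hcore := core hm cls src rev (fun e => by simp [rev]) Prod.fst (fun e => rfl)
    (fun e => out e.1 (pref (ext d e.2.1) (2 * h))) (fun e => rfl) (N * W ^ h / S ^ h)
    (by positivity) (W ^ h) Θ i ?_ hO (η := η) ?_ hη0 hη1 (4 * N * W ^ h / (2 * W ^ h))
    (4 * N * W ^ h) (by positivity) ?_
  · refine le_trans (le_of_eq ?_) (hcore.trans (le_of_eq ?_))
    · congr 1
      field_simp
    · simp [Fintype.card_prod]
  · rintro ⟨b, x⟩ z
    have : (W ^ h) = (univ : Finset (Fin h → Fin W)).card := by simp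
    rw [this]
    refine card_le_card_of_injOn (fun e => e.2.1 (!b)) (fun _ _ => mem_univ _) ?_
    rintro ⟨z₁, τ₁, b₁⟩ h₁ ⟨z₂, τ₂, b₂⟩ h₂ h₃
    simp only [src, coe_filter, mem_univ, true_and, Set.mem_ofPred_eq, Prod.mk.injEq] at h₁ h₂ h₃
    obtain ⟨⟨rfl, h₁⟩, rfl⟩ := h₁
    obtain ⟨⟨rfl, h₂⟩, rfl⟩ := h₂
    have h₄ : τ₁ b₂ = τ₂ b₂ := by
      funext j
      have := congrFun (h₁.trans h₂.symm) j
      exact (Prod.mk.inj this).2
    have : τ₁ = τ₂ := by
      funext b
      by_cases hb : b = b₂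
      · rw [hb, h₄]
      · rw [Bool.eq_not_iff.2 hb, h₃]
    rw [this]
  · refine le_trans (le_of_eq ?_) hη
    push_cast
    field_simp
  · intro s g
    obtain ⟨M, hM⟩ := hcor s g
    let f : Bool × (Fin h → Fin S × Fin W) → ℝ := fun v =>
      if ∀ j, M (v.2 j).1 = (v.2 j).2 then 1 else 0
    have hf : ∀ e, f (src e) = if Cons d (addr e.1) M e.2.1 e.2.2 then 1 else 0 :=
      fun e => if_congr Iff.rfl rfl rfl
    have hff : ∀ v, f v * f v = f v := fun v => by simp only [f]; split_ifs <;> simp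
    refine ⟨f, ?_, ?_⟩
    · simp only [mul_assoc, hff, add_mul]
      rw [sum_add_distrib, ← mul_sum]
      have h1 : ∑ x, ((univ.filter fun e => src e = x).card : ℝ) * f x = ∑ e, f (src e) := by
        rw [← Finset.sum_fiberwise (s := univ) (g := src)]
        refine sum_congr rfl (fun x _ => ?_)
        rw [sum_congr rfl (g := fun _ => f x) (fun e he => by rw [(mem_filter.1 he).2])]
        simp
      have h2 : ∑ e, f (src e) ≤ 2 * N * W ^ h := by
        simp only [hf]
        rw [sum_boole]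
        have : (univ.filter fun e : Z × (Bool → Fin h → Fin W) × Bool =>
            Cons d (addr e.1) M e.2.1 e.2.2).card ≤
            (univ : Finset (Z × (Fin h → Fin W) × Bool)).card := by
          refine card_le_card_of_injOn (fun e => (e.1, e.2.1 (!e.2.2), e.2.2))
            (fun _ _ => mem_univ _) ?_
          rintro ⟨z₁, τ₁, b₁⟩ h₁ ⟨z₂, τ₂, b₂⟩ h₂ h₃
          simp only [coe_filter, mem_univ, true_and, Set.mem_ofPred_eq, Prod.mk.injEq] at h₁ h₂ h₃
          obtain ⟨rfl, h₃, rfl⟩ := h₃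
          have : τ₁ = τ₂ := by
            refine cons_uniq (d := d) (addr := addr z₁) (M := M) (fun b => ?_)
            by_cases hb : b = b₁
            · rw [hb]; exact Or.inr ⟨h₁, h₂⟩
            · rw [Bool.eq_not_iff.2 hb]; exact Or.inl h₃
          rw [this]
        have h3 : ((univ : Finset (Z × (Fin h → Fin W) × Bool)).card : ℝ) = 2 * N * W ^ h := by
          simp [Fintype.card_prod, hN]; ring
        rw [← h3]
        exact_mod_cast this
      have h3 : ∑ x, f x ≤ 2 * S ^ h := by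
        simp only [f]
        rw [sum_boole]
        have : (univ.filter fun v : Bool × (Fin h → Fin S × Fin W) =>
            ∀ j, M (v.2 j).1 = (v.2 j).2).card ≤
            (univ : Finset (Bool × (Fin h → Fin S))).card := by
          refine card_le_card_of_injOn (fun v => (v.1, fun j => (v.2 j).1))
            (fun _ _ => mem_univ _) ?_
          rintro ⟨b₁, x₁⟩ h₁ ⟨b₂, x₂⟩ h₂ h₃
          simp only [coe_filter, mem_univ, true_and, Set.mem_ofPred_eq, Prod.mk.injEq] at h₁ h₂ h₃
          obtain ⟨rfl, h₃⟩ := h₃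
          congr 1
          funext j
          have h4 := congrFun h₃ j
          exact Prod.ext h4 (by rw [← h₁ j, ← h₂ j, h4])
        have h4 : ((univ : Finset (Bool × (Fin h → Fin S))).card : ℝ) = 2 * S ^ h := by
          simp [Fintype.card_prod]
        rw [← h4]
        exact_mod_cast this
      have h4 : N * W ^ h / S ^ h * ∑ x, f x ≤ 2 * N * W ^ h := by
        refine (mul_le_mul_of_nonneg_left h3 (by positivity)).trans (le_of_eq ?_)
        field_simp
      rw [h1]
      linarith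
    · have hterm : ∀ z τ b, sgn (out z (pref (ext d τ) (2 * h))) * sgn (g (cls s z)) *
          f (src (z, τ, b)) * f (src (rev (z, τ, b))) = if τ = tru (addr z) M then 1 else 0 := by
        intro z τ b
        rw [hf, hf]
        by_cases hτ : τ = tru (addr z) M
        · subst hτ
          simp only [rev, cons_tru, if_true, mul_one]
          rw [pref_tru d _ _ _ le_rfl, hM, sgn_mul_self]
        · rw [if_neg hτ]
          simp only [rev]
          split_ifs with h1 h2
          · refine (hτ (cons_uniq (d := d) (addr := addr z) (M := M) (fun b' => Or.inr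
              ⟨?_, cons_tru d _ _ _⟩))).elim
            by_cases hb : b' = b
            · rw [hb]; exact h1
            · rw [Bool.eq_not_iff.2 hb]; exact h2
          all_goals simp
      rw [Fintype.sum_prod_type]
      simp only [Fintype.sum_prod_type, hterm]
      simp only [Fintype.sum_bool, sum_add_distrib, sum_ite_eq', mem_univ, if_true, sum_const,
        card_univ, nsmul_eq_mul, ← hN]
      refine le_of_eq ?_
      field_simp
      norm_num

end Pool.Agent.MP_5e38ef_lc

end

section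

namespace Pool.Agent.MP_5e38ef_lc
open Finset

variable {k n n' m : ℕ}

lemma sum_lt (hk : 0 < k) (s : Fin k × Fin n → Fin m) (x : Fin k → Fin n) :
    ∑ a, (s (a, x a) : ℕ) < k * m := by
  have : Nonempty (Fin k) := ⟨⟨0, hk⟩⟩
  calc _ < ∑ _a : Fin k, m := sum_lt_sum_of_nonempty univ_nonempty fun a _ => (s _).2
    _ = _ := by simp

/-- The class of a query: its last index and the sum of the hidden offsets. -/
def cls (hk : 0 < k) (s : Fin k × Fin n → Fin m) (z : Fin n' × (Fin k → Fin n)) :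
    Fin n' × Fin (k * m) := (z.1, ⟨∑ a, (s (a, z.2 a) : ℕ), sum_lt hk s z.2⟩)

lemma fresh_cls (hk : 0 < k) (Q : ℕ) (l : List (Fin n' × (Fin k → Fin n))) (hl : l.length < Q) :
    ∃ O : Finset (Fin n' × (Fin k → Fin n)), O.card ≤ Q ^ (k + 1) ∧
      ∀ z ∉ O, Fresh (cls (m := m) hk) l z := by
  classical
  refine ⟨(l.map Prod.fst).toFinset ×ˢ Fintype.piFinset fun a => (l.map fun z => z.2 a).toFinset,
    ?_, ?_⟩
  · rw [card_product, Fintype.card_piFinset, pow_succ']
    refine Nat.mul_le_mul ((List.toFinset_card_le _).trans (by simp; omega)) ?_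
    refine (prod_le_pow_card _ _ Q fun a _ => ?_).trans (by simp)
    exact (List.toFinset_card_le _).trans (by simp; omega)
  · intro z hz
    rw [mem_product, not_and_or] at hz
    rcases hz with hz | hz
    · left
      intro s hs
      obtain ⟨z', hz', h⟩ := List.mem_map.1 hs
      have h1 : (cls hk s z').1 = (cls hk s z).1 := congrArg Prod.fst h
      exact hz (List.mem_toFinset.2 (List.mem_map.2 ⟨z', hz', h1⟩))
    · right
      rw [Fintype.mem_piFinset, not_forall] at hz
      obtain ⟨a, ha⟩ := hz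
      refine ⟨(a, z.2 a), fun z' hz' s v => ?_, fun s v v' h => ?_⟩
      · refine Prod.ext rfl (Fin.ext ?_)
        simp only [cls]
        refine sum_congr rfl fun a' _ => ?_
        rw [Function.update_of_ne]
        intro h
        obtain ⟨rfl, h⟩ := Prod.mk.inj h
        exact ha (List.mem_toFinset.2 (List.mem_map.2 ⟨z', hz', h⟩))
      · have h1 := congrArg (fun p => (p.2 : ℕ)) h
        have h2 : ∀ u : Fin m, ∑ a', (Function.update s (a, z.2 a) u (a', z.2 a') : ℕ) =
            u + ∑ a' ∈ univ.erase a, (s (a', z.2 a') : ℕ) := by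
          intro u
          rw [← add_sum_erase _ _ (mem_univ a), Function.update_self]
          congr 1
          refine sum_congr rfl fun a' ha' => ?_
          rw [Function.update_of_ne]
          intro h
          exact (mem_erase.1 ha').1 (Prod.mk.inj h).1
        simp only [cls, h2] at h1
        exact Fin.ext (by omega)

/-- The last array. -/
def lastArr (hΓ : 0 < k * m) (n : ℕ) (g : Fin n' × Fin (k * m) → Bool) (x : ℕ) : ℕ :=
  if h : x / (k * m) < n' then
    (if g (⟨x / (k * m), h⟩, ⟨x % (k * m), Nat.mod_lt _ hΓ⟩) = true then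
      x / (k * m) * n ^ k * (2 * (k * m) + 2) + (k * m - x % (k * m)) else k * m + 1)
  else k * m + 1

/-- The arrays of the hard instance. -/
def arr (hΓ : 0 < k * m) (s : Fin k × Fin n → Fin m) (g : Fin n' × Fin (k * m) → Bool) :
    Fin (k + 1) → Fin n → ℕ :=
  Fin.lastCases (fun x => lastArr hΓ n g x)
    fun a x => x * n ^ (a : ℕ) * (2 * (k * m) + 2) + s (a, x)

/-- The integer that a query stands for. -/
def qry (m : ℕ) (z : Fin n' × (Fin k → Fin n)) : ℕ :=
  (z.1 * n ^ k + ∑ a, (z.2 a : ℕ) * n ^ (a : ℕ)) * (2 * (k * m) + 2) + k * m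

lemma digits_lt (x : Fin k → Fin n) : ∑ a, (x a : ℕ) * n ^ (a : ℕ) < n ^ k := by
  rw [← finFunctionFinEquiv_apply]
  exact (finFunctionFinEquiv x).2

lemma divmod_eq {a b c d B : ℕ} (hb : b < B) (hd : d < B) (h : a * B + b = c * B + d) :
    a = c ∧ b = d := by
  have hB : 0 < B := by omega
  have h1 := congrArg (· / B) h
  have h2 := congrArg (· % B) h
  simp only [mul_comm _ B, Nat.mul_add_div hB, Nat.div_eq_of_lt hb, Nat.div_eq_of_lt hd,
    Nat.mul_add_mod, Nat.mod_eq_of_lt hb, Nat.mod_eq_of_lt hd] at h1 h2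
  exact ⟨by omega, h2⟩

lemma sum_arr (hΓ : 0 < k * m) (s : Fin k × Fin n → Fin m) (g : Fin n' × Fin (k * m) → Bool)
    (x : Fin (k + 1) → Fin n) :
    ∑ a, arr hΓ s g a (x a) = (∑ a : Fin k, (x a.castSucc : ℕ) * n ^ (a : ℕ)) * (2 * (k * m) + 2) +
      ∑ a : Fin k, (s (a, x a.castSucc) : ℕ) + lastArr hΓ n g (x (Fin.last k)) := by
  rw [Fin.sum_univ_castSucc]
  simp only [arr, Fin.lastCases_castSucc, Fin.lastCases_last, sum_add_distrib, sum_mul]

lemma arr_iff (hk : 0 < k) (hΓ : 0 < k * m) (hn : n' * (k * m) ≤ n) (s : Fin k × Fin n → Fin m)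
    (g : Fin n' × Fin (k * m) → Bool) (z : Fin n' × (Fin k → Fin n)) :
    (∃ x : Fin (k + 1) → Fin n, qry m z = ∑ a, arr hΓ s g a (x a)) ↔ g (cls hk s z) = true := by
  constructor
  · rintro ⟨x, hx⟩
    rw [sum_arr, qry, lastArr] at hx
    have h1 := sum_lt hk s fun a => x a.castSucc
    have h0 := Nat.mod_lt (x (Fin.last k) : ℕ) hΓ
    split_ifs at hx with h2 h3
    · obtain ⟨h4, h5⟩ := divmod_eq (B := 2 * (k * m) + 2)
        (a := z.1 * n ^ k + ∑ a, (z.2 a : ℕ) * n ^ (a : ℕ)) (b := k * m)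
        (c := x (Fin.last k) / (k * m) * n ^ k + ∑ a : Fin k, (x a.castSucc : ℕ) * n ^ (a : ℕ))
        (d := ∑ a : Fin k, (s (a, x a.castSucc) : ℕ) + (k * m - x (Fin.last k) % (k * m)))
        (by omega) (by omega) (by rw [hx]; ring)
      obtain ⟨h6, h7⟩ := divmod_eq (digits_lt _) (digits_lt fun a => x a.castSucc) h4
      have h8 : z.2 = fun a => x a.castSucc := by
        apply finFunctionFinEquiv.injective
        apply Fin.ext
        rw [finFunctionFinEquiv_apply, finFunctionFinEquiv_apply, h7]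
      rw [← h3]
      congr 1
      refine Prod.ext (Fin.ext h6) (Fin.ext ?_)
      simp only [cls, h8]
      omega
    all_goals
      have := (divmod_eq (B := 2 * (k * m) + 2)
        (a := z.1 * n ^ k + ∑ a, (z.2 a : ℕ) * n ^ (a : ℕ)) (b := k * m)
        (c := ∑ a : Fin k, (x a.castSucc : ℕ) * n ^ (a : ℕ))
        (d := ∑ a : Fin k, (s (a, x a.castSucc) : ℕ) + (k * m + 1))
        (by omega) (by omega) (by rw [hx]; ring)).2
      omega
  · intro hg
    have h1 := sum_lt hk s z.2
    set σ := ∑ a, (s (a, z.2 a) : ℕ) with hσ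
    have h2 : k * m * z.1 + σ < n := by
      have : (z.1 + 1) * (k * m) ≤ n' * (k * m) := Nat.mul_le_mul_right _ z.1.2
      nlinarith
    have h3 : (k * m * z.1 + σ) / (k * m) = z.1 := by
      rw [Nat.mul_add_div hΓ, Nat.div_eq_of_lt h1, add_zero]
    have h4 : (k * m * z.1 + σ) % (k * m) = σ := by
      rw [Nat.mul_add_mod, Nat.mod_eq_of_lt h1]
    refine ⟨Fin.lastCases ⟨_, h2⟩ z.2, ?_⟩
    rw [sum_arr]
    simp only [Fin.lastCases_castSucc, Fin.lastCases_last, ← hσ]
    have h5 : lastArr hΓ n g (k * m * z.1 + σ) =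
        z.1 * n ^ k * (2 * (k * m) + 2) + (k * m - σ) := by
      rw [lastArr, dif_pos (by rw [h3]; exact z.1.2), if_pos, h3, h4]
      rw [← hg]
      congr 1
      exact Prod.ext (Fin.ext h3) (Fin.ext h4)
    rw [h5, qry]
    have : k * m = σ + (k * m - σ) := by omega
    nlinarith

lemma qry_le (hΓ : 0 < k * m) (hn : n' * (k * m) ≤ n) (z : Fin n' × (Fin k → Fin n)) :
    qry m z ≤ 4 * n ^ (k + 1) := by
  have h1 := digits_lt z.2
  have h2 : (z.1 + 1) * n ^ k ≤ n' * n ^ k := Nat.mul_le_mul_right _ z.1.2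
  have h3 : z.1 * n ^ k + ∑ a, (z.2 a : ℕ) * n ^ (a : ℕ) + 1 ≤ n' * n ^ k := by nlinarith
  calc qry m z ≤ (z.1 * n ^ k + ∑ a, (z.2 a : ℕ) * n ^ (a : ℕ) + 1) * (2 * (k * m) + 2) := by
        rw [qry]; nlinarith
    _ ≤ n' * n ^ k * (4 * (k * m)) := Nat.mul_le_mul h3 (by omega)
    _ = 4 * (n ^ k * (n' * (k * m))) := by ring
    _ ≤ _ := by rw [pow_succ]; gcongr

lemma arr_le (hΓ : 0 < k * m) (hn : n' * (k * m) ≤ n) (hn' : 0 < n') (s : Fin k × Fin n → Fin m)
    (g : Fin n' × Fin (k * m) → Bool) (a : Fin (k + 1)) (x : Fin n) :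
    arr hΓ s g a x ≤ 4 * n ^ (k + 1) := by
  have hΓn : k * m ≤ n := le_trans (Nat.le_mul_of_pos_left _ hn') hn
  have hn0 : 0 < n := by omega
  have hp : 0 < n ^ k := by positivity
  have hb : n ^ k * (4 * (k * m)) ≤ 4 * n ^ (k + 1) := by
    calc _ = 4 * (n ^ k * (k * m)) := by ring
      _ ≤ _ := by rw [pow_succ]; gcongr
  refine Fin.lastCases ?_ (fun a => ?_) a
  · simp only [arr, Fin.lastCases_last, lastArr]
    split_ifs with h1 h2
    · have h3 : (x / (k * m) + 1) * n ^ k ≤ n' * n ^ k := Nat.mul_le_mul_right _ h1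
      calc _ ≤ (x / (k * m) + 1) * n ^ k * (2 * (k * m) + 2) := by
            have : k * m - x % (k * m) ≤ k * m := Nat.sub_le _ _
            nlinarith
        _ ≤ n' * n ^ k * (4 * (k * m)) := Nat.mul_le_mul h3 (by omega)
        _ = 4 * (n ^ k * (n' * (k * m))) := by ring
        _ ≤ _ := by rw [pow_succ]; gcongr
    all_goals nlinarith
  · simp only [arr, Fin.lastCases_castSucc]
    have h1 : (s (a, x) : ℕ) < k * m := by
      have := (s (a, x)).2
      have hk : 0 < k := Nat.pos_of_mul_pos_right hΓ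
      nlinarith
    have h2 : (x + 1) * n ^ (a : ℕ) ≤ n ^ k := by
      calc _ ≤ n * n ^ (a : ℕ) := Nat.mul_le_mul_right _ x.2
        _ = n ^ (a + 1 : ℕ) := by ring
        _ ≤ _ := Nat.pow_le_pow_right hn0 a.2
    have h3 : 0 < n ^ (a : ℕ) := by positivity
    calc _ ≤ (x + 1) * n ^ (a : ℕ) * (2 * (k * m) + 2) := by nlinarith
      _ ≤ n ^ k * (4 * (k * m)) := Nat.mul_le_mul h2 (by omega)
      _ ≤ _ := hb

theorem instance_bound (hk : 0 < k) (hm : 0 < m) (hn : n' * (k * m) ≤ n) (hn' : 0 < n')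
    {S w h : ℕ} (H : Solves (k + 1) n (4 * n ^ (k + 1)) S w (2 * h)) (i : ℕ) {η : ℝ}
    (hη : ((2 ^ (i + 1) : ℕ) : ℝ) / m + (2 ^ (i + 1)) ^ (k + 1) * S ^ h / (n' * n ^ k) ≤ η)
    (hη0 : 0 < η) (hη1 : η ≤ 1) :
    (1 / (2 * ((2 : ℝ) ^ w) ^ h)) ^ 2 ^ (i + 1) ≤
      2 * ((S : ℝ) * 2 ^ w) ^ h * (4 * η) ^ 2 ^ i := by
  classical
  have hΓ : 0 < k * m := Nat.mul_pos hk hm
  have hn0 : 0 < n := lt_of_lt_of_le (Nat.mul_pos hn' hΓ) hn
  obtain ⟨pre, addr, out, H⟩ := H
  have : Nonempty (Fin n' × (Fin k → Fin n)) := ⟨(⟨0, hn'⟩, fun _ => ⟨0, hn0⟩)⟩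
  have := probe_bound (S := S) (W := 2 ^ w) (h := h) hm (by positivity)
    (cls (n := n) (n' := n') (m := m) hk) (fun z => addr (qry m z)) (fun z => out (qry m z))
    ((2 ^ (i + 1)) ^ (k + 1)) i (fresh_cls hk _) ?_ (η := η) (by simpa using hη) hη0 hη1
  · simpa using this
  · intro s g
    refine ⟨pre fun a x => arr hΓ s g a x, fun z => ?_⟩
    have h1 := H (fun a x => arr hΓ s g a x)
      (fun a x => ⟨by positivity, by exact_mod_cast arr_le hΓ hn hn' s g a x⟩) (qry m z)
      (by positivity) (by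
        have := qry_le hΓ hn z
        exact_mod_cast this.trans (Nat.le_mul_of_pos_left _ (by omega)))
    rw [Bool.eq_iff_iff, h1, ← arr_iff hk hΓ hn]
    exact exists_congr fun x => by exact_mod_cast Iff.rfl

end Pool.Agent.MP_5e38ef_lc

end

section

namespace Pool.Agent.MP_5e38ef_lc
open Finset Filter

theorem finite_bound {k n S w h : ℕ} (hk : 0 < k)
    (H : Solves (k + 1) n (4 * n ^ (k + 1)) S w (2 * h)) (i : ℕ)
    (h1 : 2 * (S * 2 ^ w) ^ h ≤ 2 ^ 2 ^ i)
    (h2 : k * (64 * 2 ^ (i + 1) * ((2 ^ w) ^ h) ^ 2) ≤ n) :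
    n ^ (k + 1) ≤ 8192 * k * (2 ^ (i + 1)) ^ (k + 2) * ((2 ^ w) ^ h) ^ 4 * S ^ h := by
  set m := 64 * 2 ^ (i + 1) * ((2 ^ w) ^ h) ^ 2 with hm
  have hm0 : 0 < m := by positivity
  have hΓ : 0 < k * m := Nat.mul_pos hk hm0
  set n' := n / (k * m) with hn'
  have hn'0 : 0 < n' := Nat.div_pos h2 hΓ
  have hn : n' * (k * m) ≤ n := Nat.div_mul_le_self _ _
  have hn2 : n ≤ 2 * n' * (k * m) := by
    have := Nat.lt_mul_div_succ n hΓ
    rw [← hn'] at this
    nlinarith
  have hn0 : 0 < n := lt_of_lt_of_le hΓ h2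
  set W : ℝ := ((2 : ℝ) ^ w) ^ h with hW
  have hW1 : 1 ≤ W := one_le_pow₀ (one_le_pow₀ (by norm_num))
  set Q : ℝ := (2 : ℝ) ^ (i + 1) with hQ
  have hQ0 : 0 < Q := by positivity
  have hn'R : (0 : ℝ) < n' := by exact_mod_cast hn'0
  have hnR : (0 : ℝ) < n := by exact_mod_cast hn0
  have hmR : (m : ℝ) = 64 * Q * W ^ 2 := by rw [hm]; push_cast; rfl
  set x : ℝ := Q ^ (k + 1) * S ^ h / (n' * n ^ k) with hx
  have hx0 : 0 ≤ x := by positivity
  have e1 : ((2 ^ (i + 1) : ℕ) : ℝ) / m = 1 / (64 * W ^ 2) := by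
    rw [hmR]; push_cast; rw [← hQ]; field_simp
  have h3 : 1 / (32 * W ^ 2) ≤ 1 / (64 * W ^ 2) + x := by
    by_cases hη : 1 / (64 * W ^ 2) + x ≤ 1
    · have h4 := instance_bound hk hm0 hn hn'0 H i (η := 1 / (64 * W ^ 2) + x)
        (by rw [e1]) (by positivity) hη
      have h5 : 2 * ((S : ℝ) * 2 ^ w) ^ h ≤ 2 ^ 2 ^ i := by exact_mod_cast h1
      have h6 := h4.trans (mul_le_mul_of_nonneg_right h5 (by positivity))
      rw [← mul_pow, pow_succ 2 i, mul_comm (2 ^ i), pow_mul, ← hW] at h6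
      have h7 := (pow_le_pow_iff_left₀ (by positivity) (by positivity) (by positivity)).1 h6
      have e2 : (1 / (2 * W)) ^ 2 = 8 * (1 / (32 * W ^ 2)) := by field_simp; norm_num
      linarith
    · refine le_trans ?_ (not_le.1 hη).le
      rw [div_le_one (by positivity)]
      nlinarith
  have h4 : 1 / (64 * W ^ 2) ≤ x := by
    have e2 : 1 / (32 * W ^ 2) = 2 * (1 / (64 * W ^ 2)) := by field_simp; norm_num
    linarith
  rw [hx, div_le_div_iff₀ (by positivity) (by positivity), one_mul] at h4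
  have h5 : (n : ℝ) ≤ 2 * n' * (k * (64 * Q * W ^ 2)) := by
    rw [← hmR]; exact_mod_cast hn2
  have h6 : (n : ℝ) ^ (k + 1) ≤ 8192 * k * Q ^ (k + 2) * W ^ 4 * S ^ h := by
    calc (n : ℝ) ^ (k + 1) = n * n ^ k := by ring
      _ ≤ 2 * n' * (k * (64 * Q * W ^ 2)) * n ^ k := by gcongr
      _ = 128 * k * Q * W ^ 2 * (n' * n ^ k) := by ring
      _ ≤ 128 * k * Q * W ^ 2 * (Q ^ (k + 1) * S ^ h * (64 * W ^ 2)) := by gcongr
      _ = _ := by ring
  rw [hQ, hW] at h6
  exact_mod_cast h6

lemma Solves.succ {k n U S w t : ℕ} (H : Solves k n U S w t) : Solves k n U S w (t + 1) := by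
  obtain ⟨pre, addr, out, H⟩ := H
  exact ⟨pre, addr, fun z l => out z l.tail, H⟩

lemma Solves.mono {k n U U' S w t : ℕ} (H : Solves k n U S w t) (hU : U' ≤ U) :
    Solves k n U' S w t := by
  obtain ⟨pre, addr, out, H⟩ := H
  have hU' : (U' : ℤ) ≤ U := by exact_mod_cast hU
  refine ⟨pre, addr, out, fun A hA z h1 h2 => H A (fun a i => ⟨(hA a i).1, (hA a i).2.trans hU'⟩)
    z h1 (h2.trans ?_)⟩
  gcongr

lemma ev_log (C : ℝ) (hC : 0 < C) (r : ℕ) {c : ℝ} (hc : 0 < c) :
    ∀ᶠ n : ℕ in atTop, C * ((Nat.log 2 n : ℝ) + 1) ^ r ≤ (n : ℝ) ^ c := by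
  have h := (isLittleO_log_rpow_rpow_atTop (r : ℝ) hc).bound (c := 1 / (C * 3 ^ r))
    (by positivity)
  filter_upwards [tendsto_natCast_atTop_atTop.eventually h, eventually_ge_atTop 3] with n hn h3
  have hnR : (3 : ℝ) ≤ n := by exact_mod_cast h3
  have hl1 : 1 ≤ Real.log n := by
    rw [Real.le_log_iff_exp_le (by linarith)]
    exact Real.exp_one_lt_d9.le.trans (by linarith)
  have hl2 : (Nat.log 2 n : ℝ) ≤ 2 * Real.log n := by
    have h1 : ((2 ^ Nat.log 2 n : ℕ) : ℝ) ≤ n := by
      exact_mod_cast Nat.pow_log_le_self 2 (by omega)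
    have h2 := Real.log_le_log (by positivity) h1
    push_cast at h2
    rw [Real.log_pow] at h2
    have h4 := Real.log_two_gt_d9
    have h5 : (0 : ℝ) ≤ Nat.log 2 n := by positivity
    nlinarith
  rw [Real.norm_of_nonneg (by positivity), Real.norm_of_nonneg (by positivity), Real.rpow_natCast,
    one_div, ← div_eq_inv_mul, le_div_iff₀ (by positivity)] at hn
  refine le_trans ?_ hn
  calc _ ≤ C * (3 * Real.log n) ^ r := by gcongr; linarith
    _ = _ := by rw [mul_pow]; ring

theorem main (k t : ℕ) (hk : 2 ≤ k) (ht : 1 ≤ t) (δ : ℝ) (hδ : 0 < δ) (hδ2 : δ ≤ 2) :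
    ∀ᶠ n : ℕ in atTop, ∀ U S w : ℕ, 4 * n ^ k ≤ U →
      5 * ((t + 1) / 2 : ℕ) * (w : ℝ) ≤ δ * Real.logb 2 n → Solves k n U S w t →
        (n : ℝ) ^ ((k : ℝ) - δ) ≤ (S : ℝ) ^ ((t + 1) / 2) := by
  obtain ⟨k, rfl⟩ : ∃ k', k = k' + 1 := ⟨k - 1, by omega⟩
  have hk0 : 0 < k := by omega
  have hkR : (0 : ℝ) < k := by exact_mod_cast hk0
  set h := (t + 1) / 2 with hh
  have hh1 : 1 ≤ h := by omega
  set A : ℕ := h * (k + 2) + 1 with hA
  filter_upwards [ev_log (256 * k * A) (by positivity) 1 (c := 1 / 5) (by norm_num),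
    ev_log (8192 * k * (4 * A) ^ (k + 2)) (by positivity) (k + 2) (c := δ / 5) (by positivity),
    eventually_ge_atTop 1] with n e1 e2 hn U S w hU hw H
  have hnR : (1 : ℝ) ≤ n := by exact_mod_cast hn
  have H2 : Solves (k + 1) n (4 * n ^ (k + 1)) S w (2 * h) := by
    rcases (by omega : 2 * h = t ∨ 2 * h = t + 1) with e | e <;> rw [e]
    · exact H.mono hU
    · exact (H.mono hU).succ
  by_cases hS : n ^ (k + 1) ≤ S
  · calc _ ≤ (n : ℝ) ^ ((k + 1 : ℕ) : ℝ) := Real.rpow_le_rpow_of_exponent_le hnR (by linarith)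
      _ ≤ S := by rw [Real.rpow_natCast]; exact_mod_cast hS
      _ ≤ _ := le_self_pow₀ (by exact_mod_cast (Nat.one_le_pow _ _ hn).trans hS) (by omega)
  set l := Nat.log 2 n with hl
  have hnl : n < 2 ^ (l + 1) := Nat.lt_pow_succ_log_self (by norm_num) n
  have hlog : Real.logb 2 n ≤ l + 1 := by
    rw [Real.logb_le_iff_le_rpow (by norm_num) (by linarith)]
    exact_mod_cast hnl.le
  have hlog0 : 0 ≤ Real.logb 2 n := Real.logb_nonneg (by norm_num) hnR
  have hwl : w ≤ l + 1 := by
    have h1 : (1 : ℝ) ≤ h := by exact_mod_cast hh1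
    have h2 : (0 : ℝ) ≤ w := by positivity
    have : (w : ℝ) ≤ l + 1 := by nlinarith
    exact_mod_cast this
  set X := 1 + h * ((k + 1) * (l + 1) + w) with hX
  have hX2 : 1 < X := by
    have : 0 < h * ((k + 1) * (l + 1) + w) := by positivity
    omega
  set i := Nat.clog 2 X with hi
  have hi1 : X ≤ 2 ^ i := Nat.le_pow_clog (by norm_num) X
  have hi2 : 2 ^ (i + 1) ≤ 4 * A * (l + 1) := by
    have h1 := Nat.pow_pred_clog_lt_self (b := 2) (by norm_num) hX2
    have h2 := Nat.clog_pos (b := 2) (by norm_num) hX2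
    rw [← hi] at h1 h2
    have h3 : 2 ^ (i + 1) = 4 * 2 ^ i.pred := by
      obtain ⟨j, hj⟩ : ∃ j, i = j + 1 := ⟨i - 1, by omega⟩
      rw [hj, Nat.pred_succ]; ring
    have h4 : X ≤ A * (l + 1) := by
      have : h * ((k + 1) * (l + 1) + w) ≤ h * ((k + 2) * (l + 1)) :=
        Nat.mul_le_mul_left _ (by nlinarith)
      rw [hX, hA]; nlinarith
    rw [h3, mul_assoc]; omega
  have hi3 : (2 : ℝ) ^ (i + 1) ≤ 4 * A * (l + 1) := by exact_mod_cast hi2
  have hW : ((2 : ℝ) ^ w) ^ h ≤ (n : ℝ) ^ (δ / 5) := by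
    rw [← pow_mul, ← Real.rpow_natCast, ← Real.rpow_logb (b := 2) (x := n) (by norm_num)
      (by norm_num) (by linarith), ← Real.rpow_mul (by norm_num)]
    refine Real.rpow_le_rpow_of_exponent_le (by norm_num) ?_
    push_cast
    linarith
  have key := finite_bound hk0 H2 i ?_ ?_
  · have h1 : (n : ℝ) ^ (k + 1) ≤
        8192 * k * (2 ^ (i + 1)) ^ (k + 2) * (((2 : ℝ) ^ w) ^ h) ^ 4 * S ^ h := by
      exact_mod_cast key
    have h2 : (8192 : ℝ) * k * (2 ^ (i + 1)) ^ (k + 2) ≤ (n : ℝ) ^ (δ / 5) := by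
      refine le_trans ?_ e2
      calc _ ≤ (8192 : ℝ) * k * (4 * A * (l + 1)) ^ (k + 2) := by gcongr
        _ = _ := by rw [mul_pow]; ring
    have h3 : (n : ℝ) ^ (k + 1) ≤ (n : ℝ) ^ δ * S ^ h := by
      refine h1.trans (mul_le_mul_of_nonneg_right ?_ (by positivity))
      calc _ ≤ (n : ℝ) ^ (δ / 5) * ((n : ℝ) ^ (δ / 5)) ^ 4 := by gcongr
        _ = ((n : ℝ) ^ (δ / 5)) ^ (5 : ℕ) := by ring
        _ = _ := by
          rw [← Real.rpow_natCast, ← Real.rpow_mul (by positivity)]
          congr 1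
          push_cast
          ring
    rw [Real.rpow_sub (by linarith), Real.rpow_natCast, div_le_iff₀ (by positivity), mul_comm]
    exact h3
  · have h1 : S ≤ 2 ^ ((k + 1) * (l + 1)) := by
      rw [mul_comm, pow_mul]
      exact (not_le.1 hS).le.trans (Nat.pow_le_pow_left hnl.le _)
    calc 2 * (S * 2 ^ w) ^ h ≤ 2 * (2 ^ ((k + 1) * (l + 1)) * 2 ^ w) ^ h := by gcongr
      _ = 2 ^ X := by rw [hX, ← pow_add, ← pow_mul, pow_add, pow_one, mul_comm h]
      _ ≤ _ := Nat.pow_le_pow_right (by norm_num) hi1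
  · have h1 : (k : ℝ) * (64 * 2 ^ (i + 1) * (((2 : ℝ) ^ w) ^ h) ^ 2) ≤ n := by
      have h2 : (n : ℝ) ^ (δ / 5) ≤ (n : ℝ) ^ (2 / 5 : ℝ) :=
        Real.rpow_le_rpow_of_exponent_le hnR (by linarith)
      have h3 := hW.trans h2
      calc _ ≤ (k : ℝ) * (64 * (4 * A * (l + 1)) * ((n : ℝ) ^ (2 / 5 : ℝ)) ^ 2) := by gcongr
        _ = 256 * k * A * ((l : ℝ) + 1) ^ 1 * ((n : ℝ) ^ (2 / 5 : ℝ)) ^ 2 := by ring
        _ ≤ (n : ℝ) ^ (1 / 5 : ℝ) * ((n : ℝ) ^ (2 / 5 : ℝ)) ^ 2 := by gcongr
        _ = n := by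
          rw [← Real.rpow_natCast, ← Real.rpow_mul (by positivity),
            ← Real.rpow_add (by linarith)]
          norm_num
    exact_mod_cast h1

end Pool.Agent.MP_5e38ef_lc

end
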